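import Pool.Agent.H89.FC.TargetsN
import Pool.Agent.H79.FM.FM1

/-!
# MP_52e316_nt, board `fmx_modules`: row NF1

The fourth moment, all weights, levels in `[X / 4, X]`.
-/

set_option autoImplicit false

open MeasureTheory Set Filter NumberField
open scoped Real nonZeroDivisors

namespace Pool.Agent.H70.FC

open Pool.Agent.H31.CN Pool.Agent.H89.FM Pool.Agent.H61.FM Pool.Agent.H89.FC

open Pool.Agent.H79.FM (St meas_St int_g)

lemma wt_le2 (y M : ℝ) (hM : 0 ≤ M) (a b : ℕ) (h : a + 4 ≤ b) :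
    (1 + |y| + M) ^ a / (1 + |y| + M) ^ b ≤ ((1 + M) ^ 2)⁻¹ * (1 + y ^ 2)⁻¹ := by
  have hy : 0 ≤ |y| := abs_nonneg y
  have h1 : (1 : ℝ) ≤ 1 + |y| + M := by linarith
  have h0 : (0 : ℝ) < 1 + |y| + M := by linarith
  have h3 : y ^ 2 = |y| ^ 2 := (sq_abs y).symm
  have h4 : 1 + y ^ 2 ≤ (1 + |y| + M) ^ 2 := by
    rw [h3]
    nlinarith [mul_nonneg hy hM]
  have h5 : (1 + M) ^ 2 ≤ (1 + |y| + M) ^ 2 :=
    pow_le_pow_left₀ (by linarith) (by linarith) 2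
  have h2 : (1 + |y| + M) ^ a * ((1 + M) ^ 2 * (1 + y ^ 2)) ≤ (1 + |y| + M) ^ b := by
    calc (1 + |y| + M) ^ a * ((1 + M) ^ 2 * (1 + y ^ 2)) ≤
          (1 + |y| + M) ^ a * ((1 + |y| + M) ^ 2 * (1 + |y| + M) ^ 2) := by
          apply mul_le_mul_of_nonneg_left _ (by positivity)
          exact mul_le_mul h5 h4 (by positivity) (by positivity)
      _ = (1 + |y| + M) ^ (a + 4) := by
          rw [pow_add]
          ring
      _ ≤ (1 + |y| + M) ^ b := pow_le_pow_right₀ h1 h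
  rw [← mul_inv, div_le_iff₀ (by positivity), inv_mul_eq_div, le_div_iff₀ (by positivity)]
  exact h2

/-- the sum over the weights converges -/
lemma summable_wt : Summable (fun m : ℤ => ((1 + |(m : ℝ)|) ^ 2)⁻¹) := by
  have h : Summable (fun n : ℕ => ((1 + (n : ℝ)) ^ 2)⁻¹) := by
    have h1 : Summable (fun n : ℕ => (((n : ℝ)) ^ 2)⁻¹) :=
      Real.summable_nat_pow_inv.2 (by norm_num)
    have h2 := (summable_nat_add_iff 1).2 h1
    refine h2.congr fun n => ?_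
    push_cast
    rw [add_comm]
  refine Summable.of_nat_of_neg ?_ ?_
  · refine h.congr fun n => ?_
    rw [Int.cast_natCast, abs_of_nonneg (Nat.cast_nonneg n)]
  · refine h.congr fun n => ?_
    rw [Int.cast_neg, Int.cast_natCast, abs_neg, abs_of_nonneg (Nat.cast_nonneg n)]

/-- the case of a fixed weight, with a saving in the weight -/
theorem fixedWeight (hSUP : T_SUP) (hFMS : T_FMSc) (hTRB : T_TRBc) :
    ∀ ε : ℝ, 0 < ε → ∃ (C : ℝ) (A : ℕ), 0 < C ∧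
    ∀ (m : ℤ) (X : ℝ) (K : ℕ → Type) [∀ D, Field (K D)] [∀ D, NumberField (K D)]
      (σ : ∀ D, K D →+* ℂ) (S : Finset (IX K)) (F : IX K → ℂ → ℂ) (t : IX K → ℝ),
      1 ≤ X → Fam K σ S F (X / 4) X → (∀ y ∈ S, y.2.2.1 = m) →
      ∑ y ∈ S, (‖F y (1 / 2 + t y * Complex.I)‖ / (1 + |t y| + |(m : ℝ)|) ^ A) ^ 4 ≤
        C * ((1 + |(m : ℝ)|) ^ 2)⁻¹ * X ^ (3 / 2 + ε) := by
  intro ε hε
  obtain ⟨κ, hκ, hκ8, C1, k1, hC1, hF⟩ := hFMS ε hε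
  obtain ⟨C2, hC2, hS2⟩ := hSUP κ hκ
  obtain ⟨C3, k3, hC3, hB⟩ := hTRB
  obtain ⟨A, hA⟩ : ∃ A : ℕ, A = k1 + k3 + 1 := ⟨_, rfl⟩
  obtain ⟨I0, hI0⟩ : ∃ I0 : ℝ, I0 = ∫ p in St κ, (1 + p.2 ^ 2)⁻¹ := ⟨_, rfl⟩
  have hI0n : 0 ≤ I0 := by
    rw [hI0]
    exact setIntegral_nonneg (meas_St κ) fun p _ => by positivity
  refine ⟨C2 * 2 ^ (4 * A) * (C1 * I0) + 1, A, by positivity, ?_⟩
  intro m X K _ _ σ S F t hX hS hm
  obtain ⟨M, hM⟩ : ∃ M : ℝ, M = |(m : ℝ)| := ⟨_, rfl⟩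
  have hM0 : 0 ≤ M := by
    rw [hM]
    exact abs_nonneg _
  rw [← hM]
  -- points of the strip
  have hre : ∀ p : ℝ × ℝ, ((p.1 : ℂ) + (p.2 : ℂ) * Complex.I).re = p.1 := by
    intro p
    simp
  have him : ∀ p : ℝ × ℝ, ((p.1 : ℂ) + (p.2 : ℂ) * Complex.I).im = p.2 := by
    intro p
    simp
  have hSt : ∀ p ∈ St κ, |((p.1 : ℂ) + (p.2 : ℂ) * Complex.I).re - 1 / 2| ≤ κ := by
    intro p hp
    have h1 := hp.1
    rw [hre, abs_le]
    constructor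
    · linarith [h1.1]
    · linarith [h1.2]
  -- the integrands
  obtain ⟨h, hh⟩ : ∃ h : IX K → ℝ × ℝ → ℝ, h = fun y p =>
      ‖F y ((p.1 : ℂ) + (p.2 : ℂ) * Complex.I)‖ ^ 4 / (1 + |p.2| + M) ^ (4 * A) := ⟨_, rfl⟩
  have hhn : ∀ y p, 0 ≤ h y p := by
    intro y p
    rw [hh]
    positivity
  have hcont : Continuous (fun p : ℝ × ℝ => (p.1 : ℂ) + (p.2 : ℂ) * Complex.I) := by
    fun_prop
  have hint : ∀ y ∈ S, IntegrableOn (h y) (St κ) := by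
    intro y hy
    have hFc : ContinuousOn (F y) {1}ᶜ := (hS.lf y hy).1.continuousOn
    have hmaps : MapsTo (fun p : ℝ × ℝ => (p.1 : ℂ) + (p.2 : ℂ) * Complex.I) (St κ) {1}ᶜ := by
      intro p hp hcon
      have h1 : (p.1 : ℂ) + (p.2 : ℂ) * Complex.I = 1 := hcon
      have h2 := hSt p hp
      rw [h1, Complex.one_re, abs_le] at h2
      linarith [h2.2]
    have hhc : ContinuousOn (h y) (St κ) := by
      rw [hh]
      refine ContinuousOn.div ((hFc.comp hcont.continuousOn hmaps).norm.pow 4) ?_ ?_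
      · fun_prop
      · intro p _
        positivity
    obtain ⟨B, hBe⟩ : ∃ B : ℝ, B = (C3 * ((y.1 : ℝ) * (y.2.1 : ℝ) ^ 2) ^ 2) ^ 4 := ⟨_, rfl⟩
    have hB0 : 0 ≤ B := by
      rw [hBe]
      positivity
    have hg := (int_g κ).const_mul (B * ((1 + M) ^ 2)⁻¹)
    refine Integrable.mono' hg (hhc.aestronglyMeasurable (meas_St κ)) ?_
    refine (ae_restrict_iff' (meas_St κ)).2 (Eventually.of_forall fun p hp => ?_)
    rw [Real.norm_eq_abs, abs_of_nonneg (hhn y p), hh]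
    have h2 := hB (K y.1) (σ y.1) y.1 y.2.1 y.2.2.1 y.2.2.2 (F y) (hS.iq y hy) (hS.ch y hy)
      (hS.lf y hy) ((p.1 : ℂ) + (p.2 : ℂ) * Complex.I) ((hSt p hp).trans hκ8)
    rw [him, hm y hy, ← hM] at h2
    have h3 : ‖F y ((p.1 : ℂ) + (p.2 : ℂ) * Complex.I)‖ ^ 4 ≤
        B * (1 + |p.2| + M) ^ (4 * k3) := by
      refine (pow_le_pow_left₀ (norm_nonneg _) h2 4).trans (le_of_eq ?_)
      rw [hBe, mul_comm 4 k3, pow_mul]
      ring
    calc ‖F y ((p.1 : ℂ) + (p.2 : ℂ) * Complex.I)‖ ^ 4 / (1 + |p.2| + M) ^ (4 * A) ≤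
        B * (1 + |p.2| + M) ^ (4 * k3) / (1 + |p.2| + M) ^ (4 * A) :=
          div_le_div_of_nonneg_right h3 (by positivity)
      _ = B * ((1 + |p.2| + M) ^ (4 * k3) / (1 + |p.2| + M) ^ (4 * A)) := by ring
      _ ≤ B * (((1 + M) ^ 2)⁻¹ * (1 + p.2 ^ 2)⁻¹) :=
          mul_le_mul_of_nonneg_left (wt_le2 p.2 M hM0 (4 * k3) (4 * A) (by omega)) hB0
      _ = B * ((1 + M) ^ 2)⁻¹ * (1 + p.2 ^ 2)⁻¹ := by ring
  -- each term
  have hterm : ∀ y ∈ S,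
      (‖F y (1 / 2 + t y * Complex.I)‖ / (1 + |t y| + M) ^ A) ^ 4 ≤
        C2 * 2 ^ (4 * A) * ∫ p in St κ, h y p := by
    intro y hy
    obtain ⟨τ, hτ⟩ : ∃ τ : ℝ, τ = t y := ⟨_, rfl⟩
    rw [← hτ]
    have hd : DifferentiableOn ℂ (F y) {s : ℂ | |s.re - 1 / 2| < 2 * κ} := by
      refine (hS.lf y hy).1.mono fun s hs hcon => ?_
      have h1 : s = 1 := hcon
      have h2 : |s.re - 1 / 2| < 2 * κ := hs
      rw [h1, Complex.one_re] at h2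
      have h3 := (abs_lt.1 h2).2
      linarith
    have h1 := hS2 (F y) τ hd
    have hτ0 : (0 : ℝ) < 1 + |τ| + M := by positivity
    have hbox : Icc (1 / 2 - κ) (1 / 2 + κ) ×ˢ Icc (τ - κ) (τ + κ) ⊆ St κ :=
      prod_mono (Subset.refl _) (subset_univ _)
    have hmb : MeasurableSet (Icc (1 / 2 - κ) (1 / 2 + κ) ×ˢ Icc (τ - κ) (τ + κ)) :=
      measurableSet_Icc.prod measurableSet_Icc
    have hib : IntegrableOn (h y) (Icc (1 / 2 - κ) (1 / 2 + κ) ×ˢ Icc (τ - κ) (τ + κ)) :=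
      (hint y hy).mono_set hbox
    have h2 : ∫ p in Icc (1 / 2 - κ) (1 / 2 + κ) ×ˢ Icc (τ - κ) (τ + κ),
        ‖F y ((p.1 : ℂ) + (p.2 : ℂ) * Complex.I)‖ ^ 4 ≤
        ∫ p in Icc (1 / 2 - κ) (1 / 2 + κ) ×ˢ Icc (τ - κ) (τ + κ),
          (2 * (1 + |τ| + M)) ^ (4 * A) * h y p := by
      refine integral_mono_of_nonneg (Eventually.of_forall fun p => by positivity)
        (hib.const_mul _) ?_
      refine (ae_restrict_iff' hmb).2 (Eventually.of_forall fun p hp => ?_)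
      have hp2 := hp.2
      have h3 : 1 + |p.2| + M ≤ 2 * (1 + |τ| + M) := by
        have h4 : |p.2 - τ| ≤ κ := by
          rw [abs_le]
          constructor
          · linarith [hp2.1]
          · linarith [hp2.2]
        have h5 : |p.2| ≤ |p.2 - τ| + |τ| := by
          have h6 := abs_add_le (p.2 - τ) τ
          rwa [sub_add_cancel] at h6
        have h7 := abs_nonneg τ
        linarith
      have h4 : (1 + |p.2| + M) ^ (4 * A) ≤ (2 * (1 + |τ| + M)) ^ (4 * A) :=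
        pow_le_pow_left₀ (by positivity) h3 _
      change ‖F y ((p.1 : ℂ) + (p.2 : ℂ) * Complex.I)‖ ^ 4 ≤
        (2 * (1 + |τ| + M)) ^ (4 * A) * h y p
      rw [hh]
      change ‖F y ((p.1 : ℂ) + (p.2 : ℂ) * Complex.I)‖ ^ 4 ≤ (2 * (1 + |τ| + M)) ^ (4 * A) *
        (‖F y ((p.1 : ℂ) + (p.2 : ℂ) * Complex.I)‖ ^ 4 / (1 + |p.2| + M) ^ (4 * A))
      rw [mul_div_assoc', le_div_iff₀ (by positivity), mul_comm]
      exact mul_le_mul_of_nonneg_right h4 (by positivity)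
    have h3 : ∫ p in Icc (1 / 2 - κ) (1 / 2 + κ) ×ˢ Icc (τ - κ) (τ + κ),
        (2 * (1 + |τ| + M)) ^ (4 * A) * h y p ≤
          (2 * (1 + |τ| + M)) ^ (4 * A) * ∫ p in St κ, h y p := by
      rw [integral_const_mul]
      refine mul_le_mul_of_nonneg_left ?_ (by positivity)
      exact setIntegral_mono_set (hint y hy) (Eventually.of_forall fun p => hhn y p)
        (Eventually.of_forall fun p hp => hbox hp)
    have h4 : ‖F y (1 / 2 + τ * Complex.I)‖ ^ 4 ≤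
        C2 * ((2 * (1 + |τ| + M)) ^ (4 * A) * ∫ p in St κ, h y p) :=
      h1.trans (mul_le_mul_of_nonneg_left (h2.trans h3) hC2.le)
    rw [div_pow, ← pow_mul, div_le_iff₀ (by positivity)]
    refine h4.trans (le_of_eq ?_)
    rw [mul_pow, mul_comm A 4]
    ring
  -- the sum
  have hsum1 : ∑ y ∈ S, (‖F y (1 / 2 + t y * Complex.I)‖ / (1 + |t y| + M) ^ A) ^ 4 ≤
      C2 * 2 ^ (4 * A) * ∑ y ∈ S, ∫ p in St κ, h y p := by
    rw [Finset.mul_sum]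
    exact Finset.sum_le_sum fun y hy => hterm y hy
  have hsum2 : ∑ y ∈ S, ∫ p in St κ, h y p = ∫ p in St κ, ∑ y ∈ S, h y p :=
    (integral_finsetSum _ hint).symm
  have hsum3 : ∫ p in St κ, ∑ y ∈ S, h y p ≤
      ∫ p in St κ, C1 * X ^ (3 / 2 + ε) * ((1 + M) ^ 2)⁻¹ * (1 + p.2 ^ 2)⁻¹ := by
    refine setIntegral_mono_on (integrable_finsetSum _ hint)
      ((int_g κ).const_mul _) (meas_St κ) ?_
    intro p hp
    have h1 := hF m ((p.1 : ℂ) + (p.2 : ℂ) * Complex.I) X K σ S F (hSt p hp) hX hS hm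
    rw [him, ← hM] at h1
    have h2 : ∑ y ∈ S, h y p =
        (∑ y ∈ S, ‖F y ((p.1 : ℂ) + (p.2 : ℂ) * Complex.I)‖ ^ 4) /
          (1 + |p.2| + M) ^ (4 * A) := by
      rw [Finset.sum_div, hh]
    rw [h2]
    have hXp : 0 ≤ C1 * X ^ (3 / 2 + ε) :=
      mul_nonneg hC1.le (Real.rpow_nonneg (by linarith) _)
    calc (∑ y ∈ S, ‖F y ((p.1 : ℂ) + (p.2 : ℂ) * Complex.I)‖ ^ 4) /
          (1 + |p.2| + M) ^ (4 * A) ≤
          C1 * (1 + |p.2| + M) ^ k1 * X ^ (3 / 2 + ε) / (1 + |p.2| + M) ^ (4 * A) :=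
          div_le_div_of_nonneg_right h1 (by positivity)
      _ = C1 * X ^ (3 / 2 + ε) * ((1 + |p.2| + M) ^ k1 / (1 + |p.2| + M) ^ (4 * A)) := by ring
      _ ≤ C1 * X ^ (3 / 2 + ε) * (((1 + M) ^ 2)⁻¹ * (1 + p.2 ^ 2)⁻¹) :=
          mul_le_mul_of_nonneg_left (wt_le2 p.2 M hM0 k1 (4 * A) (by omega)) hXp
      _ = C1 * X ^ (3 / 2 + ε) * ((1 + M) ^ 2)⁻¹ * (1 + p.2 ^ 2)⁻¹ := by ring
  have hsum4 : ∫ p in St κ, C1 * X ^ (3 / 2 + ε) * ((1 + M) ^ 2)⁻¹ * (1 + p.2 ^ 2)⁻¹ =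
      C1 * X ^ (3 / 2 + ε) * ((1 + M) ^ 2)⁻¹ * I0 := by
    rw [integral_const_mul, hI0]
  have hfin := hsum1.trans (mul_le_mul_of_nonneg_left
    ((hsum2.le.trans hsum3).trans hsum4.le) (by positivity : (0 : ℝ) ≤ C2 * 2 ^ (4 * A)))
  refine hfin.trans ?_
  have hXp : 0 ≤ ((1 + M) ^ 2)⁻¹ * X ^ (3 / 2 + ε) :=
    mul_nonneg (by positivity) (Real.rpow_nonneg (by linarith) _)
  have hid : C2 * 2 ^ (4 * A) * (C1 * X ^ (3 / 2 + ε) * ((1 + M) ^ 2)⁻¹ * I0) =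
      C2 * 2 ^ (4 * A) * (C1 * I0) * (((1 + M) ^ 2)⁻¹ * X ^ (3 / 2 + ε)) := by ring
  rw [hid, mul_assoc (C2 * 2 ^ (4 * A) * (C1 * I0) + 1)]
  exact mul_le_mul_of_nonneg_right (by linarith) hXp

theorem pf_FM1c (hSUP : T_SUP) (hFMS : T_FMSc) (hTRB : T_TRBc) : T_FM1c := by
  intro ε hε
  obtain ⟨C, A, hC, hfw⟩ := fixedWeight hSUP hFMS hTRB ε hε
  obtain ⟨Z, hZ⟩ : ∃ Z : ℝ, Z = ∑' m : ℤ, ((1 + |(m : ℝ)|) ^ 2)⁻¹ := ⟨_, rfl⟩
  have hZ0 : 0 ≤ Z := by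
    rw [hZ]
    exact tsum_nonneg fun m => by positivity
  refine ⟨C * Z + 1, A, by positivity, ?_⟩
  intro X K _ _ σ S F t hX hS
  have hXp : 0 ≤ X ^ (3 / 2 + ε) := Real.rpow_nonneg (by linarith) _
  obtain ⟨g, hg⟩ : ∃ g : IX K → ℝ, g = fun y =>
      (‖F y (1 / 2 + t y * Complex.I)‖ / (1 + |t y| + |(y.2.2.1 : ℝ)|) ^ A) ^ 4 := ⟨_, rfl⟩
  obtain ⟨T, hT⟩ : ∃ T : Finset ℤ, T = S.image (fun y : IX K => y.2.2.1) := ⟨_, rfl⟩
  have hmap : ∀ y ∈ S, y.2.2.1 ∈ T := by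
    intro y hy
    rw [hT]
    exact Finset.mem_image_of_mem (fun y : IX K => y.2.2.1) hy
  have h1 : ∑ m ∈ T, ∑ y ∈ S with y.2.2.1 = m, g y = ∑ y ∈ S, g y :=
    Finset.sum_fiberwise_of_maps_to hmap g
  have h2 : ∀ m ∈ T, ∑ y ∈ S with y.2.2.1 = m, g y ≤
      C * X ^ (3 / 2 + ε) * ((1 + |(m : ℝ)|) ^ 2)⁻¹ := by
    intro m _
    have hSm : Fam K σ (S.filter fun y => y.2.2.1 = m) F (X / 4) X :=
      ⟨fun y hy => hS.q y (Finset.mem_filter.1 hy).1, fun y hy => hS.iq y (Finset.mem_filter.1 hy).1,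
        fun y hy => hS.ch y (Finset.mem_filter.1 hy).1,
        fun y hy => hS.lf y (Finset.mem_filter.1 hy).1⟩
    have h3 := hfw m X K σ (S.filter fun y => y.2.2.1 = m) F t hX hSm
      (fun y hy => (Finset.mem_filter.1 hy).2)
    have h4 : ∑ y ∈ S with y.2.2.1 = m, g y = ∑ y ∈ S with y.2.2.1 = m,
        (‖F y (1 / 2 + t y * Complex.I)‖ / (1 + |t y| + |(m : ℝ)|) ^ A) ^ 4 := by
      refine Finset.sum_congr rfl fun y hy => ?_
      rw [hg]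
      change (‖F y (1 / 2 + t y * Complex.I)‖ / (1 + |t y| + |(y.2.2.1 : ℝ)|) ^ A) ^ 4 = _
      rw [(Finset.mem_filter.1 hy).2]
    rw [h4]
    refine h3.trans (le_of_eq ?_)
    ring
  have h3 : ∑ y ∈ S, g y ≤ C * X ^ (3 / 2 + ε) * ∑ m ∈ T, ((1 + |(m : ℝ)|) ^ 2)⁻¹ := by
    rw [← h1, Finset.mul_sum]
    exact Finset.sum_le_sum h2
  have h4 : ∑ m ∈ T, ((1 + |(m : ℝ)|) ^ 2)⁻¹ ≤ Z := by
    rw [hZ]
    exact summable_wt.sum_le_tsum T fun m _ => by positivity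
  have h5 : C * X ^ (3 / 2 + ε) * ∑ m ∈ T, ((1 + |(m : ℝ)|) ^ 2)⁻¹ ≤
      C * X ^ (3 / 2 + ε) * Z := mul_le_mul_of_nonneg_left h4 (mul_nonneg hC.le hXp)
  have h6 := h3.trans h5
  rw [hg] at h6
  refine h6.trans ?_
  have h7 : C * X ^ (3 / 2 + ε) * Z = C * Z * X ^ (3 / 2 + ε) := by ring
  rw [h7]
  exact mul_le_mul_of_nonneg_right (by linarith) hXp

end Pool.Agent.H70.FC
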